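import Pool.Agent.H.MP_b28609_co.Gap.K.NoHor

/-!
# MP_b28609_co, exact theorem: in 40 clean rows all guards move to the next row
-/

set_option autoImplicit false

noncomputable section

namespace PatGap

/-- four of the five cells of a neighbourhood follow the lattice: the cell to the left does so too -/
private theorem bandK_left {e : ℤ → ℤ → ℤ} (hb : Bin e) {s c i j : ℤ} (hs : s = 2 ∨ s = 3)
    (c0 : 0 ≤ c) (c4 : c ≤ 4) (ha : a e i j = 1) (h0 : e i j = 1 ↔ (i + s * j) % 5 = c)
    (h1 : e (i - 1) j = 1 ↔ (i - 1 + s * j) % 5 = c)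
    (h2 : e (i + 1) j = 1 ↔ (i + 1 + s * j) % 5 = c)
    (h3 : e i (j + 1) = 1 ↔ (i + s * (j + 1)) % 5 = c) :
    e i (j - 1) = 1 ↔ (i + s * (j - 1)) % 5 = c := by
  unfold a at ha
  have b0 := hb i j
  have b1 := hb (i - 1) j
  have b2 := hb (i + 1) j
  have b3 := hb i (j + 1)
  have b4 := hb i (j - 1)
  rcases hs with rfl | rfl
  · constructor
    · intro h5
      omega
    · intro h5
      omega
  · constructor
    · intro h5
      omega
    · intro h5
      omega

/-- the same for the cell to the right -/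
private theorem bandK_right {e : ℤ → ℤ → ℤ} (hb : Bin e) {s c i j : ℤ} (hs : s = 2 ∨ s = 3)
    (c0 : 0 ≤ c) (c4 : c ≤ 4) (ha : a e i j = 1) (h0 : e i j = 1 ↔ (i + s * j) % 5 = c)
    (h1 : e (i - 1) j = 1 ↔ (i - 1 + s * j) % 5 = c)
    (h2 : e (i + 1) j = 1 ↔ (i + 1 + s * j) % 5 = c)
    (h3 : e i (j - 1) = 1 ↔ (i + s * (j - 1)) % 5 = c) :
    e i (j + 1) = 1 ↔ (i + s * (j + 1)) % 5 = c := by
  unfold a at ha
  have b0 := hb i j
  have b1 := hb (i - 1) j
  have b2 := hb (i + 1) j
  have b3 := hb i (j + 1)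
  have b4 := hb i (j - 1)
  rcases hs with rfl | rfl
  · constructor
    · intro h5
      omega
    · intro h5
      omega
  · constructor
    · intro h5
      omega
    · intro h5
      omega

/-- the columns `10`, `11`, `n - 10`, `n - 9` -/
private theorem bandK_lat {n : ℤ} {e : ℤ → ℤ → ℤ} (hb : Bin e) {s c r : ℤ} (hs : s = 2 ∨ s = 3)
    (c0 : 0 ≤ c) (c4 : c ≤ 4) (hn : 30 ≤ n) (hC : CleanK n e r)
    (hl : Lat e s c (r + 2) (r + 39) 12 (n - 11)) : Lat e s c (r + 4) (r + 37) 10 (n - 9) := by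
  have ha : ∀ i j, r + 1 ≤ i → i ≤ r + 40 → 11 ≤ j → j ≤ n - 10 → a e i j = 1 :=
    fun i j h1 h2 h3 h4 => (hC i h1 h2).2 j h3 h4
  have k1 : Lat e s c (r + 3) (r + 38) 11 (n - 10) := by
    intro i j h1 h2 h3 h4
    by_cases h5 : j = 11
    · have h6 := bandK_left hb hs c0 c4 (ha i 12 (by omega) (by omega) (by omega) (by omega))
        (hl i 12 (by omega) (by omega) (by omega) (by omega))
        (hl (i - 1) 12 (by omega) (by omega) (by omega) (by omega))
        (hl (i + 1) 12 (by omega) (by omega) (by omega) (by omega))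
        (hl i (12 + 1) (by omega) (by omega) (by omega) (by omega))
      have h7 : j = 12 - 1 := by omega
      rw [h7]
      exact h6
    · by_cases h6 : j = n - 10
      · have h7 := bandK_right hb hs c0 c4
          (ha i (n - 11) (by omega) (by omega) (by omega) (by omega))
          (hl i (n - 11) (by omega) (by omega) (by omega) (by omega))
          (hl (i - 1) (n - 11) (by omega) (by omega) (by omega) (by omega))
          (hl (i + 1) (n - 11) (by omega) (by omega) (by omega) (by omega))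
          (hl i (n - 11 - 1) (by omega) (by omega) (by omega) (by omega))
        have h8 : j = n - 11 + 1 := by omega
        rw [h8]
        exact h7
      · exact hl i j (by omega) (by omega) (by omega) (by omega)
  intro i j h1 h2 h3 h4
  by_cases h5 : j = 10
  · have h6 := bandK_left hb hs c0 c4 (ha i 11 (by omega) (by omega) (by omega) (by omega))
      (k1 i 11 (by omega) (by omega) (by omega) (by omega))
      (k1 (i - 1) 11 (by omega) (by omega) (by omega) (by omega))
      (k1 (i + 1) 11 (by omega) (by omega) (by omega) (by omega))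
      (k1 i (11 + 1) (by omega) (by omega) (by omega) (by omega))
    have h7 : j = 11 - 1 := by omega
    rw [h7]
    exact h6
  · by_cases h6 : j = n - 9
    · have h7 := bandK_right hb hs c0 c4
        (ha i (n - 10) (by omega) (by omega) (by omega) (by omega))
        (k1 i (n - 10) (by omega) (by omega) (by omega) (by omega))
        (k1 (i - 1) (n - 10) (by omega) (by omega) (by omega) (by omega))
        (k1 (i + 1) (n - 10) (by omega) (by omega) (by omega) (by omega))
        (k1 i (n - 10 - 1) (by omega) (by omega) (by omega) (by omega))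
      have h8 : j = n - 10 + 1 := by omega
      rw [h8]
      exact h7
    · exact k1 i j (by omega) (by omega) (by omega) (by omega)

/-- the motion to the next row -/
private theorem bandK_gd {n : ℤ} {e e' : ℤ → ℤ → ℤ} {f : ℤ × ℤ → ℤ × ℤ} {s c c' r : ℤ}
    (hs : s = 2 ∨ s = 3) (c0 : 0 ≤ c) (c4 : c ≤ 4) (c0' : 0 ≤ c') (c4' : c' ≤ 4)
    (hc : (c' - c) % 5 = 1) (hl : Lat e s c (r + 4) (r + 37) 10 (n - 9))
    (hl' : Lat e' s c' (r + 4) (r + 37) 10 (n - 9)) (hf : Mv e e' f) : GdK n e e' f s c r := by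
  refine ⟨hs, c0, c4, hl, ?_, ?_⟩
  · have h1 : (c + 1) % 5 = c' := by omega
    rw [h1]
    exact hl'
  · intro i j h1 h2 h3 h4 h5
    have h6 := (hl i j (by omega) (by omega) (by omega) (by omega)).1 h5
    have hm := hf.mem (i, j) h5
    have hn := hf.nb (i, j) h5
    unfold Nb at hn
    dsimp only at hm hn
    rcases hn with ⟨g1, g2 | g2⟩ | ⟨g1, g2 | g2⟩
    · exfalso
      rw [g1, g2] at hm
      have h7 := (hl' i (j + 1) (by omega) (by omega) (by omega) (by omega)).1 hm
      rcases hs with rfl | rfl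
      · omega
      · omega
    · exfalso
      rw [g1, g2] at hm
      have h7 := (hl' i (j - 1) (by omega) (by omega) (by omega) (by omega)).1 hm
      rcases hs with rfl | rfl
      · omega
      · omega
    · exact Prod.ext g2 g1
    · exfalso
      rw [g1, g2] at hm
      have h7 := (hl' (i - 1) j (by omega) (by omega) (by omega) (by omega)).1 hm
      omega

/-- In clean rows all guards of the middle move to the next row, for `d` or for `d'`. -/
theorem bandK (hR : RigGStmt) (hD : DispStmt) (hI : MvInvStmt) (m n : ℤ) (d d' : ℤ → ℤ → ℤ)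
    (f : ℤ × ℤ → ℤ × ℤ) (r : ℤ) (hd : DomG m n d) (hd' : DomG m n d') (hf : Mv d d' f)
    (hn : 30 ≤ n) (hr : 10 ≤ r) (hrm : r + 50 ≤ m) (k1 : CleanK2 n d r) (k2 : CleanK2 n d' r) :
    (∃ s c : ℤ, GdK n d d' f s c r) ∨
      ∀ g : ℤ × ℤ → ℤ × ℤ, Mv d' d g → ∃ s c : ℤ, GdK n d' d g s c r := by
  obtain ⟨s, c, hs, hc0, hc4, hL⟩ := hR d (r + 1) (r + 40) 11 (n - 10) hd.1 (by omega) (by omega)
    (fun i j h1 h2 h3 h4 => (k1.1 i h1 h2).2 j h3 h4)
  obtain ⟨s', c', hs', hc0', hc4', hL'⟩ := hR d' (r + 1) (r + 40) 11 (n - 10) hd'.1 (by omega)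
    (by omega) (fun i j h1 h2 h3 h4 => (k2.1 i h1 h2).2 j h3 h4)
  have e1 : r + 1 + 1 = r + 2 := by ring
  have e2 : r + 40 - 1 = r + 39 := by ring
  have e3 : (11 : ℤ) + 1 = 12 := by norm_num
  have e4 : n - 10 - 1 = n - 11 := by ring
  rw [e1, e2, e3, e4] at hL hL'
  have m1 := bandK_lat hd.1 hs hc0 hc4 hn k1.1 hL
  have m2 := bandK_lat hd'.1 hs' hc0' hc4' hn k2.1 hL'
  obtain ⟨rfl, hne⟩ := hD d d' f s s' c c' (r + 4) (r + 37) 10 (n - 9) hf hs hs' (by omega)
    (by omega) hc0 hc4 hc0' hc4' m1 m2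
  have hF1 := noHor m n d d' f r s c c' hd hd' hf hn hr hrm k1.1 k2.1 hs hc0 hc4 hc0' hc4' m1 m2
  obtain ⟨g, hg, _, _⟩ := hI d d' f hf
  have hF2 := noHor m n d' d g r s c' c hd' hd hg hn hr hrm k2.1 k1.1 hs hc0' hc4' hc0 hc4 m2 m1
  have l3 : (c' - c) % 5 = 1 ∨ (c' - c) % 5 = 4 := by
    rcases hs with rfl | rfl <;> omega
  rcases l3 with l3 | l3
  · exact Or.inl ⟨s, c, bandK_gd hs hc0 hc4 hc0' hc4' l3 m1 m2 hf⟩
  · exact Or.inr fun g hg => ⟨s, c', bandK_gd hs hc0' hc4' hc0 hc4 (by omega) m2 m1 hg⟩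

end PatGap
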