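import Pool.Agent.H.MP_b28609_co.Gap.K.Stmt
import Pool.Agent.H.MP_b28609_co.Gap.Ex.ExDom

/-!
# MP_b28609_co, exact theorem, lower bound with small constants: the glued set is dominating
-/

set_option autoImplicit false

namespace PatGap

/-- in the clean middle both descriptions agree -/
theorem gl_midK {n bL bR r s c : ℤ} {d d' : ℤ → ℤ → ℤ} {f : ℤ × ℤ → ℤ × ℤ} (hB : Bin d)
    (hB' : Bin d') (hg : GdK n d d' f s c r) {i j : ℤ} (hi : r + 5 ≤ i) (hi2 : i ≤ r + 37)
    (hj : 10 ≤ j) (hj2 : j ≤ n - 9) : gl n bL bR d d' i j = d' i j := by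
  have h1 := hg.lat (i - 1) j (by omega) (by omega) hj hj2
  have h2 := hg.lat' i j (by omega) (by omega) hj hj2
  have hc0 := hg.c0
  have hc4 := hg.c4
  have h3 : d (i - 1) j = d' i j := by
    rcases hB (i - 1) j with h4 | h4 <;> rcases hB' i j with h5 | h5
    · rw [h4, h5]
    · exfalso
      have h6 := h2.1 h5
      have h7 : (i - 1 + s * j) % 5 = c := by omega
      have h8 := h1.2 h7
      omega
    · exfalso
      have h6 := h1.1 h4
      have h7 : (i + s * j) % 5 = (c + 1) % 5 := by omega
      have h8 := h2.2 h7
      omega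
    · rw [h4, h5]
  unfold gl
  split_ifs
  · rfl
  · exact h3
  · rfl
  · exact h3

theorem domK (m n : ℤ) (d d' : ℤ → ℤ → ℤ) (f : ℤ × ℤ → ℤ × ℤ) (r s c bL bR : ℤ)
    (hd : DomG m n d) (hd' : DomG m n d') (hn : 30 ≤ n) (hr : 10 ≤ r) (hm : r + 50 ≤ m)
    (hg : GdK n d d' f s c r) (hbL : r + 10 ≤ bL) (hbL2 : bL ≤ r + 23) (hbR : r + 10 ≤ bR)
    (hbR2 : bR ≤ r + 23) (hGL : GoodRow d d' f bL)
    (hGR : GoodRow (rf n d) (rf n d') (rff n f) bR) : DomG (m + 1) n (gl n bL bR d d') := by
  refine ⟨?_, ?_, ?_⟩
  · intro i j
    unfold gl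
    split_ifs
    · exact hd'.1 i j
    · exact hd.1 (i - 1) j
    · exact hd'.1 i j
    · exact hd.1 (i - 1) j
  · intro i j hij
    have h1 : d' i j = 0 := hd'.2.1 i j fun h => hij ⟨h.1, by omega, h.2.2.1, h.2.2.2⟩
    have h2 : d (i - 1) j = 0 := by
      refine hd.2.1 (i - 1) j fun h => hij ⟨?_, ?_, h.2.2.1, h.2.2.2⟩
      · have := h.1
        omega
      · have := h.2.1
        omega
    unfold gl
    split_ifs
    · exact h1
    · exact h2
    · exact h1
    · exact h2
  · intro i j hi hi2 hj hj2
    rcases le_or_gt j 10 with hj10 | hj10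
    · -- left side
      have h := gl_one (b := bL) hd hd' hi hi2 hj hj2 (by omega) (by omega) (hGL.1 j hj hj10)
        (hGL.2.1 j hj hj10)
      unfold a at h ⊢
      rw [gl_left (bR := bR) i j (by omega), gl_left (bR := bR) (i - 1) j (by omega),
        gl_left (bR := bR) (i + 1) j (by omega), gl_left (bR := bR) i (j - 1) (by omega),
        gl_left (bR := bR) i (j + 1) (by omega)]
      exact h
    · rcases le_or_gt (n - 9) j with hjn | hjn
      · -- right side
        have e1 := hGR.1 (n + 1 - j) (by omega) (by omega)
        have e2 := hGR.2.1 (n + 1 - j) (by omega) (by omega)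
        unfold rf at e1 e2
        rw [show n + 1 - (n + 1 - j) = j by ring, show n + 1 - (n + 1 - j - 1) = j + 1 by ring,
          show n + 1 - (n + 1 - j + 1) = j - 1 by ring] at e1 e2
        have h := gl_one (b := bR) hd hd' hi hi2 hj hj2 (by omega) (by omega) (by linarith)
          (by linarith)
        unfold a at h ⊢
        rw [gl_right (bL := bL) i j (by omega), gl_right (bL := bL) (i - 1) j (by omega),
          gl_right (bL := bL) (i + 1) j (by omega), gl_right (bL := bL) i (j - 1) (by omega),
          gl_right (bL := bL) i (j + 1) (by omega)]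
        exact h
      · -- middle
        rcases lt_or_ge i (r + 6) with h7 | h7
        · unfold a
          rw [gl_le (by omega) (by omega), gl_le (by omega) (by omega),
            gl_le (by omega) (by omega), gl_le (by omega) (by omega), gl_le (by omega) (by omega)]
          exact hd'.2.2 i j hi (by omega) hj hj2
        · rcases le_or_gt i (r + 30) with h8 | h8
          · unfold a
            rw [gl_midK hd.1 hd'.1 hg (by omega) (by omega) (by omega) (by omega),
              gl_midK hd.1 hd'.1 hg (by omega) (by omega) (by omega) (by omega),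
              gl_midK hd.1 hd'.1 hg (by omega) (by omega) (by omega) (by omega),
              gl_midK hd.1 hd'.1 hg (by omega) (by omega) (by omega) (by omega),
              gl_midK hd.1 hd'.1 hg (by omega) (by omega) (by omega) (by omega)]
            exact hd'.2.2 i j hi (by omega) hj hj2
          · unfold a
            rw [gl_gt (by omega) (by omega), gl_gt (by omega) (by omega),
              gl_gt (by omega) (by omega), gl_gt (by omega) (by omega),
              gl_gt (by omega) (by omega)]
            have h4 := hd.2.2 (i - 1) j (by omega) (by omega) hj hj2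
            unfold a at h4
            rw [show i + 1 - 1 = i - 1 + 1 by ring]
            exact h4

end PatGap
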