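import Pool.Agent.H.MP_b28609_co.Gap.K.Stmt
import Pool.Agent.H.MP_b28609_co.Gap.Ex.ExSide

/-!
# MP_b28609_co, exact theorem, lower bound with small constants: the two side strips
-/

set_option autoImplicit false

namespace PatGap

theorem sideK_lat {n : ℤ} {d : ℤ → ℤ → ℤ} {s c c2 r1 r2 r3 r4 : ℤ} (hs : s = 2 ∨ s = 3)
    (hn : 30 ≤ n) (h : Lat d s c r1 r2 10 (n - 9)) (h13 : r1 ≤ r3) (h42 : r4 ≤ r2)
    (hc0 : 0 ≤ c) (hc4 : c ≤ 4) (hc2 : c2 = (c - s * (n + 1)) % 5) :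
    Lat (rf n d) (5 - s) c2 r3 r4 10 13 := by
  intro i j h1 h2 h3 h4
  have h5 := h i (n + 1 - j) (by omega) (by omega) (by omega) (by omega)
  unfold rf
  rw [h5, hc2]
  rcases hs with rfl | rfl
  · omega
  · omega

theorem sideK (m n : ℤ) (d d' : ℤ → ℤ → ℤ) (f : ℤ × ℤ → ℤ × ℤ) (r s c : ℤ) (hd : DomG m n d)
    (hd' : DomG m n d') (hf : Mv d d' f) (hn : 30 ≤ n) (hr : 10 ≤ r) (hm : r + 50 ≤ m)
    (hC : CleanK2 n d r) (hC' : CleanK2 n d' r) (hG : GdK n d d' f s c r) :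
    Strip d d' f s c (r + 5) 31 ∧
      ∃ c2 : ℤ, Strip (rf n d) (rf n d') (rff n f) (5 - s) c2 (r + 5) 31 := by
  obtain ⟨hb, hz, hD⟩ := hd
  obtain ⟨hb', hz', hD'⟩ := hd'
  refine ⟨⟨hb, hb', hf, fun i j hj => hz i j (by omega), fun i j hj => hz' i j (by omega),
    fun i j h1 h2 h3 h4 => hD i j (by omega) (by omega) h3 (by omega),
    fun i j h1 h2 h3 h4 => hD' i j (by omega) (by omega) h3 (by omega),
    fun i h1 h2 => (hC.1 i (by omega) (by omega)).1,
    fun i h1 h2 => (hC'.1 i (by omega) (by omega)).1, hG.slope,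
    fun i j h1 h2 h3 h4 => hG.lat i j (by omega) (by omega) h3 (by omega),
    fun i j h1 h2 h3 h4 => hG.lat' i j (by omega) (by omega) h3 (by omega), hG.c0, hG.c4,
    fun i j h1 h2 h3 h4 => hG.down i j (by omega) (by omega) (by omega) (by omega)⟩,
    (c - s * (n + 1)) % 5, ?_⟩
  refine ⟨fun i j => hb i (n + 1 - j), fun i j => hb' i (n + 1 - j), ExSide_mv n hf,
    fun i j hj => hz i (n + 1 - j) (by omega), fun i j hj => hz' i (n + 1 - j) (by omega),
    ?_, ?_, fun i h1 h2 => (hC.2 i (by omega) (by omega)).1,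
    fun i h1 h2 => (hC'.2 i (by omega) (by omega)).1, ?_, ?_, ?_, ?_, ?_, ?_⟩
  · intro i j h1 h2 h3 h4
    rw [ExSide_a]
    exact hD i (n + 1 - j) (by omega) (by omega) (by omega) (by omega)
  · intro i j h1 h2 h3 h4
    rw [ExSide_a]
    exact hD' i (n + 1 - j) (by omega) (by omega) (by omega) (by omega)
  · rcases hG.slope with h | h <;> omega
  · exact sideK_lat hG.slope hn hG.lat (by omega) (by omega) hG.c0 hG.c4 rfl
  · refine sideK_lat hG.slope hn hG.lat' (by omega) (by omega) (by omega) (by omega) ?_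
    omega
  · omega
  · omega
  · intro i j h1 h2 h3 h4 h5
    have h6 := hG.down i (n + 1 - j) (by omega) (by omega) (by omega) (by omega) h5
    unfold rff
    change ((f (i, n + 1 - j)).1, n + 1 - (f (i, n + 1 - j)).2) = (i + 1, j)
    rw [h6]
    exact Prod.ext rfl (by ring)

end PatGap
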