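import Pool.Agent.H.MP_b28609_co.Gap.Ex.ExStrip

/-!
# MP_b28609_co, exact theorem: a clean strip of 32 rows has a good row
-/

set_option autoImplicit false
set_option maxRecDepth 100000

namespace PatGap

open Side

namespace Ex

open PatDom.V2 (allSub allSub_sound)

theorem strip31_gen (P : ℕ → List Ent) (hinit : init P 10 2 = true)
    (d d' : ℤ → ℤ → ℤ) (f : ℤ × ℤ → ℤ × ℤ) (s c r : ℤ) (hS : Strip d d' f s c r 31)
    (hm : ∀ (l : ℤ), r + 5 ≤ l → l + 12 ≤ r + 31 → ∀ φ : ℕ, (φ : ℤ) = (l - c) % 5 → dt d l ∈ P φ)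
    (hm' : ∀ (l : ℤ), r + 5 ≤ l → l + 12 ≤ r + 31 → ∀ φ : ℕ, (φ : ℤ) = (l - (c + 1) % 5) % 5 →
      dt d' l ∈ P φ) :
    ∃ b, r + 5 ≤ b ∧ b ≤ r + 18 ∧ GoodRow d d' f b := by
  obtain ⟨i, hi1, hi2, hi3⟩ : ∃ i, r + 5 ≤ i ∧ i ≤ r + 9 ∧ (i - c) % 5 = 2 :=
    ⟨r + 5 + (2 - (r + 5 - c)) % 5, by omega, by omega, by omega⟩
  have hc0 := hS.c0
  have hc4 := hS.c4
  have hF : ∀ k : ℕ, k < 10 → Fac d d' f (i + k) := by
    intro k hk
    refine ⟨⟨hS.bin, hS.bin', hS.mv, hS.zero, hS.zero', ?_⟩, ?_, ?_, ?_, ?_, ?_⟩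
    · intro l j h1 h2 h3 h4 h5
      exact hS.down l j (by omega) (by omega) h3 (by omega) h5
    · intro j h1 h2
      exact hS.dom _ j (by omega) (by omega) h1 h2
    · intro j h1 h2
      exact hS.dom _ j (by omega) (by omega) h1 h2
    · intro j h1 h2
      exact hS.dom' _ j (by omega) (by omega) h1 h2
    · exact hS.tight _ (by omega) (by omega)
    · exact hS.tight' _ (by omega) (by omega)
  have hP : ∀ k : ℕ, k ≤ 10 → dt d (i + k) ∈ P ((2 + k) % 5) ∧ dt d' (i + k) ∈ P ((2 + k + 4) % 5) := by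
    intro k hk
    refine ⟨hm _ (by omega) (by omega) _ ?_, hm' _ (by omega) (by omega) _ ?_⟩
    · push_cast
      omega
    · push_cast
      omega
  have hf : Fac d d' f i := by
    have := hF 0 (by omega)
    rwa [Nat.cast_zero, add_zero] at this
  have hP0 := hP 0 (by omega)
  simp only [Nat.cast_zero, add_zero] at hP0
  have h' : ((P 2).all fun x => (P ((2 + 4) % 5)).all fun z =>
    allSub 10 (1023 &&& x.1) 0 fun U => allSub 10 (1023 &&& z.1) 0 fun V =>
      srch P 10 2 x z (U ||| (x.1 &&& 1024)) V) = true := hinit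
  have h1 := (List.all_eq_true.mp ((List.all_eq_true.mp h') _ hP0.1)) _ hP0.2
  have hU10 : (i : ℤ) = i := rfl
  have h2 := allSub_sound _ _ _ _ h1 (Um d f i &&& 1023) (lt_of_le_of_lt Nat.and_le_right (by norm_num))
    (by
      intro k hk
      rw [Nat.testBit_and, Bool.and_eq_true, Um_bit, Bool.and_eq_true, decide_eq_true_eq,
        decide_eq_true_eq] at hk
      obtain ⟨⟨a1, a2, -⟩, a3⟩ := hk
      change (1023 &&& om d i).testBit k = true
      rw [Nat.testBit_and, a3, om_bit]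
      simp [a1, a2])
  rw [Nat.zero_or] at h2
  have hV : ∀ k, (Vm d f i).testBit k = true → k < 10 ∧ d' i (k + 1) = 1 := by
    intro k hk
    rw [Vm_bit, Bool.and_eq_true, decide_eq_true_eq, decide_eq_true_eq] at hk
    obtain ⟨a1, a2, a3⟩ := hk
    constructor
    · by_contra hcc
      have h10 : k = 10 := by omega
      subst h10
      have h4 := hf.mot.down (i + 1) (((10 : ℕ) : ℤ) + 1) (by omega) (by omega) (by norm_num)
        (by norm_num) a2
      rw [a3, Prod.mk.injEq] at h4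
      omega
    · have := hf.mot.mv.mem (i + 1, k + 1) a2
      rwa [a3] at this
  have h3 := allSub_sound _ _ _ _ h2 (Vm d f i) (lt_of_bits _ _ fun k hk => (hV k hk).1)
    (by
      intro k hk
      obtain ⟨a1, a2⟩ := hV k hk
      have a3 : k < 11 := by omega
      change (1023 &&& om d' i).testBit k = true
      rw [Nat.testBit_and, bit1023, om_bit]
      simp [a1, a2, a3])
  rw [Nat.zero_or] at h3
  have hU : (Um d f i &&& 1023) ||| (om d i &&& 1024) = Um d f i := by
    apply Nat.eq_of_testBit_eq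
    intro k
    have e : (1024 : ℕ).testBit k = decide (10 = k) := by
      rw [show (1024 : ℕ) = 2 ^ 10 from rfl, Nat.testBit_two_pow]
    rw [Nat.testBit_or, Nat.testBit_and, Nat.testBit_and, e, bit1023, om_bit, Um_bit]
    by_cases hk : k < 10
    · have hk1 : ¬ 10 = k := by omega
      simp [hk, hk1]
    · by_cases hk2 : 10 = k
      · subst hk2
        by_cases hd : d i (((10 : ℕ) : ℤ) + 1) = 1
        · have h4 := hf.mot.down i (((10 : ℕ) : ℤ) + 1) (by omega) (by omega) (by norm_num)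
            (by norm_num) hd
          rw [h4]
          simp
        · norm_num at hd
          simp [hd]
      · have hk3 : ¬ k < 11 := by omega
        simp [hk, hk2, hk3]
  change srch P 10 2 (dt d i) (dt d' i) ((Um d f i &&& 1023) ||| (om d i &&& 1024)) (Vm d f i) = true at h3
  rw [hU] at h3
  obtain ⟨b, hb1, hb2, hb3⟩ := srch_sound P 10 2 i (by omega) hF hP h3
  exact ⟨b, by omega, by push_cast at hb2; omega, hb3⟩

end Ex

open Ex

/-- A clean strip of 32 rows has a good row. -/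
theorem strip31 (d d' : ℤ → ℤ → ℤ) (f : ℤ × ℤ → ℤ × ℤ) (s c r : ℤ)
    (hS : Strip d d' f s c r 31) : ∃ b, r + 5 ≤ b ∧ b ≤ r + 18 ∧ GoodRow d d' f b := by
  have hc0 := hS.c0
  have hc4 := hS.c4
  have hl := hS.lat
  have hl' := hS.lat'
  rcases hS.slope with h2 | h2
  · subst h2
    exact strip31_gen pl2 init2 d d' f 2 c r hS
      (fun l h3 h4 φ hφ => mem2 d hS.bin hS.zero c r 31 hc0 hc4 hl hS.dom hS.tight l h3 h4 φ hφ)
      (fun l h3 h4 φ hφ => mem2 d' hS.bin' hS.zero' ((c + 1) % 5) r 31 (by omega) (by omega) hl'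
        hS.dom' hS.tight' l h3 h4 φ hφ)
  · subst h2
    exact strip31_gen pl3 init3 d d' f 3 c r hS
      (fun l h3 h4 φ hφ => mem3 d hS.bin hS.zero c r 31 hc0 hc4 hl hS.dom hS.tight l h3 h4 φ hφ)
      (fun l h3 h4 φ hφ => mem3 d' hS.bin' hS.zero' ((c + 1) % 5) r 31 (by omega) (by omega) hl'
        hS.dom' hS.tight' l h3 h4 φ hφ)

end PatGap
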