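import Pool.Agent.H.MP_b28609_co.Gap.K.PairA
import Pool.Agent.H.MP_b28609_co.Gap.Ex.PairU

/-!
# MP_b28609_co, exact theorem: no motion to the right, motions
-/

set_option autoImplicit false
set_option maxRecDepth 100000
set_option linter.unusedTactic false
set_option linter.unreachableTactic false

namespace PatGap

open Side

namespace Ex

open PatDom.V2 (allSub allSub_sound)

/-- Facts on the motion near the row `i + 1`. -/
structure MotH (d d' : ℤ → ℤ → ℤ) (f : ℤ × ℤ → ℤ × ℤ) (i : ℤ) : Prop where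
  bin : Bin d
  bin' : Bin d'
  mv : Mv d d' f
  zero : ∀ i j, j ≤ 0 → d i j = 0
  zero' : ∀ i j, j ≤ 0 → d' i j = 0
  right : ∀ l j, i ≤ l → l ≤ i + 2 → 11 ≤ j → j ≤ 12 → d l j = 1 → f (l, j) = (l, j + 1)

theorem UH_eq {d d' : ℤ → ℤ → ℤ} {f : ℤ × ℤ → ℤ × ℤ} {i : ℤ} (h : MotH d d' f i) :
    1023 &&& (om d (i + 1) ^^^ Vm d f i ^^^ (1023 &&& Rm d f (i + 1)) ^^^ Lm d f (i + 1)) =
      Um d f (i + 1) := by
  apply Nat.eq_of_testBit_eq
  intro k
  rw [Nat.testBit_and, Nat.testBit_xor, Nat.testBit_xor, Nat.testBit_xor, Nat.testBit_and, om_bit,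
    bit1023]
  unfold Vm Rm Lm Um
  rw [bm_testBit, bm_testBit, bm_testBit, bm_testBit]
  by_cases hk10 : k < 10
  · have hk : k < 11 := by omega
    simp only [hk, hk10, decide_true, Bool.true_and]
    by_cases hd : d (i + 1) (k + 1) = 1
    · simp only [hd, true_and]
      have e1 : i + 1 - 1 = i := by ring
      have e2 : (k : ℤ) + 1 + 1 = k + 2 := by ring
      have e3 : (k : ℤ) + 1 - 1 = k := by ring
      rcases four h.mv (i + 1) (k + 1) hd with h1 | h1 | h1 | h1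
      · have n1 : ¬ (i + 1 + 1 = i) := by omega
        rw [h1]
        simp [n1]
      · rw [h1, e1]
        simp
        try omega
      · rw [h1, e2]
        simp
      · rw [h1, e3]
        simp
    · simp [hd]
  · by_cases hk : k < 11
    · have hk1 : k = 10 := by omega
      subst hk1
      have : ¬ (d (i + 1) (((10 : ℕ) : ℤ) + 1) = 1 ∧
          f (i + 1, ((10 : ℕ) : ℤ) + 1) = (i + 1 + 1, ((10 : ℕ) : ℤ) + 1)) := by
        rintro ⟨h1, h2⟩
        have h3 := h.right (i + 1) (((10 : ℕ) : ℤ) + 1) (by omega) (by omega) (by norm_num)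
          (by norm_num) h1
        rw [h3, Prod.mk.injEq] at h2
        omega
      rw [decide_eq_false this]
      simp
    · simp [hk, hk10]

theorem VH_eq {d d' : ℤ → ℤ → ℤ} {f : ℤ × ℤ → ℤ × ℤ} {i : ℤ} (h : MotH d d' f i) :
    om d' (i + 1) ^^^ Um d f i ^^^ ((1023 &&& Rm d f (i + 1)) <<< 1) ^^^ (Lm d f (i + 1) >>> 1) =
      Vm d f (i + 1) := by
  apply Nat.eq_of_testBit_eq
  intro k
  rw [Nat.testBit_xor, Nat.testBit_xor, Nat.testBit_xor, om_bit, Nat.testBit_shiftLeft,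
    Nat.testBit_shiftRight, Nat.testBit_and, bit1023]
  unfold Vm Rm Lm Um
  rw [bm_testBit, bm_testBit, bm_testBit, bm_testBit]
  -- the four sources of the cell (i + 1, k + 1)
  have s1 : (d i (k + 1) = 1 ∧ f (i, (k : ℤ) + 1) = (i + 1, (k : ℤ) + 1)) → d' (i + 1) (k + 1) = 1 := by
    rintro ⟨h1, h2⟩
    have := h.mv.mem (i, k + 1) h1
    rwa [h2] at this
  by_cases hk : k < 11
  · simp only [hk, decide_true, Bool.true_and]
    have hL : (decide (1 + k < 11) && decide (d (i + 1) (((1 + k : ℕ) : ℤ) + 1) = 1 ∧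
        f (i + 1, ((1 + k : ℕ) : ℤ) + 1) = (i + 1, ((1 + k : ℕ) : ℤ)))) =
        decide (d (i + 1) ((k : ℤ) + 2) = 1 ∧ f (i + 1, (k : ℤ) + 2) = (i + 1, (k : ℤ) + 1)) := by
      have e1 : (((1 + k : ℕ) : ℤ) + 1) = k + 2 := by push_cast; ring
      have e2 : ((1 + k : ℕ) : ℤ) = k + 1 := by push_cast; ring
      rw [e1, e2]
      by_cases h10 : 1 + k < 11
      · simp [h10]
      · have hk10 : k = 10 := by omega
        subst hk10
        have : ¬ (d (i + 1) (((10 : ℕ) : ℤ) + 2) = 1 ∧ f (i + 1, ((10 : ℕ) : ℤ) + 2) = (i + 1, ((10 : ℕ) : ℤ) + 1)) := by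
          rintro ⟨h1, h2⟩
          have h3 := h.right (i + 1) (((10 : ℕ) : ℤ) + 2) (by omega) (by omega) (by norm_num) (by norm_num) h1
          rw [h3, Prod.mk.injEq] at h2
          omega
        rw [decide_eq_false this]
        simp
    rw [hL]
    have hR : (decide (k ≥ 1) && (decide (k - 1 < 10) && (decide (k - 1 < 11) &&
        decide (d (i + 1) (((k - 1 : ℕ) : ℤ) + 1) = 1 ∧
        f (i + 1, ((k - 1 : ℕ) : ℤ) + 1) = (i + 1, ((k - 1 : ℕ) : ℤ) + 2))))) =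
        decide (d (i + 1) (k : ℤ) = 1 ∧ f (i + 1, (k : ℤ)) = (i + 1, (k : ℤ) + 1)) := by
      by_cases h0 : k ≥ 1
      · have e1 : (((k - 1 : ℕ) : ℤ) + 1) = k := by omega
        have e2 : (((k - 1 : ℕ) : ℤ) + 2) = k + 1 := by omega
        have e3 : k - 1 < 11 := by omega
        have e4 : k - 1 < 10 := by omega
        rw [e1, e2]
        simp [h0, e3, e4]
      · have hk0 : k = 0 := by omega
        subst hk0
        have : ¬ (d (i + 1) ((0 : ℕ) : ℤ) = 1 ∧ f (i + 1, ((0 : ℕ) : ℤ)) = (i + 1, ((0 : ℕ) : ℤ) + 1)) := by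
          rintro ⟨h1, -⟩
          rw [h.zero _ _ (by simp)] at h1
          omega
        rw [decide_eq_false this]
        simp
    rw [hR]
    have nAB : ¬ ((d i (k + 1) = 1 ∧ f (i, (k : ℤ) + 1) = (i + 1, (k : ℤ) + 1)) ∧ (d (i + 1) (k : ℤ) = 1 ∧ f (i + 1, (k : ℤ)) = (i + 1, (k : ℤ) + 1))) := by
      rintro ⟨a1, b1⟩
      have := h.mv.inj (i, k + 1) (i + 1, k) a1.1 b1.1 (a1.2.trans b1.2.symm)
      rw [Prod.mk.injEq] at this
      omega
    have nAC : ¬ ((d i (k + 1) = 1 ∧ f (i, (k : ℤ) + 1) = (i + 1, (k : ℤ) + 1)) ∧ (d (i + 1) ((k : ℤ) + 2) = 1 ∧ f (i + 1, (k : ℤ) + 2) = (i + 1, (k : ℤ) + 1))) := by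
      rintro ⟨a1, b1⟩
      have := h.mv.inj (i, k + 1) (i + 1, k + 2) a1.1 b1.1 (a1.2.trans b1.2.symm)
      rw [Prod.mk.injEq] at this
      omega
    have nAE : ¬ ((d i (k + 1) = 1 ∧ f (i, (k : ℤ) + 1) = (i + 1, (k : ℤ) + 1)) ∧ (d (i + 1 + 1) (k + 1) = 1 ∧ f (i + 1 + 1, (k : ℤ) + 1) = (i + 1, (k : ℤ) + 1))) := by
      rintro ⟨a1, b1⟩
      have := h.mv.inj (i, k + 1) (i + 1 + 1, k + 1) a1.1 b1.1 (a1.2.trans b1.2.symm)
      rw [Prod.mk.injEq] at this
      omega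
    have nBC : ¬ ((d (i + 1) (k : ℤ) = 1 ∧ f (i + 1, (k : ℤ)) = (i + 1, (k : ℤ) + 1)) ∧ (d (i + 1) ((k : ℤ) + 2) = 1 ∧ f (i + 1, (k : ℤ) + 2) = (i + 1, (k : ℤ) + 1))) := by
      rintro ⟨a1, b1⟩
      have := h.mv.inj (i + 1, k) (i + 1, k + 2) a1.1 b1.1 (a1.2.trans b1.2.symm)
      rw [Prod.mk.injEq] at this
      omega
    have nBE : ¬ ((d (i + 1) (k : ℤ) = 1 ∧ f (i + 1, (k : ℤ)) = (i + 1, (k : ℤ) + 1)) ∧ (d (i + 1 + 1) (k + 1) = 1 ∧ f (i + 1 + 1, (k : ℤ) + 1) = (i + 1, (k : ℤ) + 1))) := by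
      rintro ⟨a1, b1⟩
      have := h.mv.inj (i + 1, k) (i + 1 + 1, k + 1) a1.1 b1.1 (a1.2.trans b1.2.symm)
      rw [Prod.mk.injEq] at this
      omega
    have nCE : ¬ ((d (i + 1) ((k : ℤ) + 2) = 1 ∧ f (i + 1, (k : ℤ) + 2) = (i + 1, (k : ℤ) + 1)) ∧ (d (i + 1 + 1) (k + 1) = 1 ∧ f (i + 1 + 1, (k : ℤ) + 1) = (i + 1, (k : ℤ) + 1))) := by
      rintro ⟨a1, b1⟩
      have := h.mv.inj (i + 1, k + 2) (i + 1 + 1, k + 1) a1.1 b1.1 (a1.2.trans b1.2.symm)
      rw [Prod.mk.injEq] at this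
      omega
    have hall : d' (i + 1) (k + 1) = 1 ↔ ((d i (k + 1) = 1 ∧ f (i, (k : ℤ) + 1) = (i + 1, (k : ℤ) + 1)) ∨ (d (i + 1) (k : ℤ) = 1 ∧ f (i + 1, (k : ℤ)) = (i + 1, (k : ℤ) + 1)) ∨ (d (i + 1) ((k : ℤ) + 2) = 1 ∧ f (i + 1, (k : ℤ) + 2) = (i + 1, (k : ℤ) + 1)) ∨ (d (i + 1 + 1) (k + 1) = 1 ∧ f (i + 1 + 1, (k : ℤ) + 1) = (i + 1, (k : ℤ) + 1))) := by
      constructor
      · intro hd'
        obtain ⟨v, hv, hfv⟩ := h.mv.surj (i + 1, k + 1) hd'
        have hn := four h.mv v.1 v.2 hv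
        have ev : (v.1, v.2) = v := rfl
        rw [ev, hfv] at hn
        simp only [Prod.mk.injEq] at hn
        rcases hn with ⟨h1, h2⟩ | ⟨h1, h2⟩ | ⟨h1, h2⟩ | ⟨h1, h2⟩
        · left
          have e : v = (i, (k : ℤ) + 1) := Prod.ext (by simp only; omega) (by simp only; omega)
          rw [e] at hv hfv
          exact ⟨hv, hfv⟩
        · right; right; right
          have e : v = (i + 1 + 1, (k : ℤ) + 1) := Prod.ext (by simp only; omega) (by simp only; omega)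
          rw [e] at hv hfv
          exact ⟨hv, hfv⟩
        · right; left
          have e : v = (i + 1, (k : ℤ)) := Prod.ext (by simp only; omega) (by simp only; omega)
          rw [e] at hv hfv
          exact ⟨hv, hfv⟩
        · right; right; left
          have e : v = (i + 1, (k : ℤ) + 2) := Prod.ext (by simp only; omega) (by simp only; omega)
          rw [e] at hv hfv
          exact ⟨hv, hfv⟩
      · rintro (h1 | h1 | h1 | h1)
        · exact s1 h1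
        · have := h.mv.mem (i + 1, k) h1.1
          rwa [h1.2] at this
        · have := h.mv.mem (i + 1, k + 2) h1.1
          rwa [h1.2] at this
        · have := h.mv.mem (i + 1 + 1, k + 1) h1.1
          rwa [h1.2] at this
    exact xor4 _ _ _ _ _ hall nAB nAC nAE nBC nBE nCE
  · have hk1 : ¬ 1 + k < 11 := by omega
    have hk2 : ¬ k - 1 < 10 := by omega
    simp [hk, hk1, hk2]

/-- Facts for the step from the row `i` to the row `i + 1`. -/
structure FacH (d d' : ℤ → ℤ → ℤ) (f : ℤ × ℤ → ℤ × ℤ) (i : ℤ) : Prop where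
  mot : MotH d d' f i
  dom : ∀ j, 1 ≤ j → j ≤ 10 → 1 ≤ a d i j
  dom' : ∀ j, 1 ≤ j → j ≤ 10 → 1 ≤ a d' i j
  tight : sg Gs d (i + 1) = 0
  tight' : sg Gs d' (i + 1) = 0

variable {d d' : ℤ → ℤ → ℤ} {f : ℤ × ℤ → ℤ × ℤ} {i : ℤ}

theorem RH_lt10 (_ : FacH d d' f i) (k : ℕ) (hk : (1023 &&& Rm d f (i + 1)).testBit k = true) :
    k < 10 ∧ d (i + 1) (k + 1) = 1 ∧ f (i + 1, (k : ℤ) + 1) = (i + 1, (k : ℤ) + 2) := by
  rw [Nat.testBit_and, bit1023, Rm_bit, Bool.and_eq_true, Bool.and_eq_true, decide_eq_true_eq,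
    decide_eq_true_eq, decide_eq_true_eq] at hk
  exact ⟨hk.1, hk.2.2.1, hk.2.2.2⟩

theorem LH_lt10 (h : FacH d d' f i) (k : ℕ) (hk : (Lm d f (i + 1)).testBit k = true) :
    k < 10 ∧ d (i + 1) (k + 1) = 1 ∧ f (i + 1, (k : ℤ) + 1) = (i + 1, (k : ℤ)) := by
  rw [Lm_bit, Bool.and_eq_true, decide_eq_true_eq, decide_eq_true_eq] at hk
  obtain ⟨h1, h2, h3⟩ := hk
  refine ⟨?_, h2, h3⟩
  by_contra hc
  have h10 : k = 10 := by omega
  subst h10
  have h4 := h.mot.right (i + 1) (((10 : ℕ) : ℤ) + 1) (by omega) (by omega) (by norm_num) (by norm_num) h2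
  rw [h3, Prod.mk.injEq] at h4
  omega

theorem RH_sub (h : FacH d d' f i) (k : ℕ) (hk : (1023 &&& Rm d f (i + 1)).testBit k = true) :
    (1023 &&& (om d (i + 1) ^^^ Vm d f i)).testBit k = true := by
  obtain ⟨h1, h2, h3⟩ := RH_lt10 h k hk
  have h4 : k < 11 := by omega
  rw [Nat.testBit_and, Nat.testBit_xor, bit1023, om_bit, Vm_bit]
  have n1 : ¬ (i + 1 = i) := by omega
  simp [h1, h4, h2, h3, n1]

theorem LH_sub (h : FacH d d' f i) (k : ℕ) (hk : (Lm d f (i + 1)).testBit k = true) :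
    (1023 &&& (om d (i + 1) ^^^ Vm d f i ^^^ (1023 &&& Rm d f (i + 1)))).testBit k = true := by
  obtain ⟨h1, h2, h3⟩ := LH_lt10 h k hk
  have h4 : k < 11 := by omega
  rw [Nat.testBit_and, Nat.testBit_xor, Nat.testBit_xor, Nat.testBit_and, bit1023, om_bit, Vm_bit,
    Rm_bit]
  have n1 : ¬ (i + 1 = i) := by omega
  simp [h1, h4, h2, h3, n1]

theorem RH_shift (h : FacH d d' f i) :
    sub ((1023 &&& Rm d f (i + 1)) <<< 1) (om d' (i + 1) ^^^ Um d f i) = true := by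
  rw [sub_iff]
  intro k hk
  rw [Nat.testBit_shiftLeft, Bool.and_eq_true, decide_eq_true_eq] at hk
  obtain ⟨hk1, hk2⟩ := hk
  obtain ⟨h1, h2, h3⟩ := RH_lt10 h (k - 1) hk2
  have e1 : (((k - 1 : ℕ) : ℤ) + 1) = k := by omega
  have e2 : (((k - 1 : ℕ) : ℤ) + 2) = k + 1 := by omega
  rw [e1] at h2 h3
  rw [e2] at h3
  have hd' : d' (i + 1) (k + 1) = 1 := by
    have := h.mot.mv.mem (i + 1, k) h2
    rwa [h3] at this
  have hk11 : k < 11 := by omega
  have nU : ¬ (d i (k + 1) = 1 ∧ f (i, (k : ℤ) + 1) = (i + 1, (k : ℤ) + 1)) := by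
    rintro ⟨a1, a2⟩
    have := h.mot.mv.inj (i, k + 1) (i + 1, k) a1 h2 (a2.trans h3.symm)
    rw [Prod.mk.injEq] at this
    omega
  rw [Nat.testBit_xor, om_bit, Um_bit, decide_eq_false nU]
  simp [hk11, hd']

theorem LH_zero (h : FacH d d' f i) : Lm d f (i + 1) % 2 = 0 := by
  have h1 : (Lm d f (i + 1)).testBit 0 = false := by
    cases hx : (Lm d f (i + 1)).testBit 0
    · rfl
    · obtain ⟨-, h2, h3⟩ := LH_lt10 h 0 hx
      have := h.mot.mv.mem (i + 1, ((0 : ℕ) : ℤ) + 1) h2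
      rw [h3] at this
      simp only at this
      rw [h.mot.zero' _ _ (by simp)] at this
      omega
  rw [Nat.testBit_zero] at h1
  have := of_decide_eq_false h1
  omega

theorem LH_shift (h : FacH d d' f i) :
    sub (Lm d f (i + 1) >>> 1)
      (om d' (i + 1) ^^^ Um d f i ^^^ ((1023 &&& Rm d f (i + 1)) <<< 1)) = true := by
  rw [sub_iff]
  intro k hk
  rw [Nat.testBit_shiftRight] at hk
  obtain ⟨h1, h2, h3⟩ := LH_lt10 h (1 + k) hk
  have e1 : (((1 + k : ℕ) : ℤ) + 1) = k + 2 := by push_cast; ring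
  have e2 : ((1 + k : ℕ) : ℤ) = k + 1 := by push_cast; ring
  rw [e1] at h2 h3
  rw [e2] at h3
  have hd' : d' (i + 1) (k + 1) = 1 := by
    have := h.mot.mv.mem (i + 1, k + 2) h2
    rwa [h3] at this
  have hk11 : k < 11 := by omega
  have nU : ¬ (d i (k + 1) = 1 ∧ f (i, (k : ℤ) + 1) = (i + 1, (k : ℤ) + 1)) := by
    rintro ⟨a1, a2⟩
    have := h.mot.mv.inj (i, k + 1) (i + 1, k + 2) a1 h2 (a2.trans h3.symm)
    rw [Prod.mk.injEq] at this
    omega
  have nR : ((1023 &&& Rm d f (i + 1)) <<< 1).testBit k = false := by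
    cases hx : ((1023 &&& Rm d f (i + 1)) <<< 1).testBit k
    · rfl
    · rw [Nat.testBit_shiftLeft, Bool.and_eq_true, decide_eq_true_eq] at hx
      obtain ⟨hk1, hk2⟩ := hx
      obtain ⟨-, b2, b3⟩ := RH_lt10 h (k - 1) hk2
      have e3 : (((k - 1 : ℕ) : ℤ) + 1) = k := by omega
      have e4 : (((k - 1 : ℕ) : ℤ) + 2) = k + 1 := by omega
      rw [e3] at b2 b3
      rw [e4] at b3
      have := h.mot.mv.inj (i + 1, k) (i + 1, k + 2) b2 h2 (b3.trans h3.symm)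
      rw [Prod.mk.injEq] at this
      omega
  rw [Nat.testBit_xor, Nat.testBit_xor, nR, om_bit, Um_bit, decide_eq_false nU]
  simp [hk11, hd']

theorem VH2_zero (h : FacH d d' f i) : Vm d f (i + 1) &&& 1024 = 0 := by
  apply Nat.eq_of_testBit_eq
  intro k
  have e : (1024 : ℕ).testBit k = decide (10 = k) := by
    rw [show (1024 : ℕ) = 2 ^ 10 from rfl, Nat.testBit_two_pow]
  rw [Nat.testBit_and, e, Vm_bit, Nat.zero_testBit]
  by_cases hk : 10 = k
  · subst hk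
    have : ¬ (d (i + 1 + 1) (((10 : ℕ) : ℤ) + 1) = 1 ∧
        f (i + 1 + 1, ((10 : ℕ) : ℤ) + 1) = (i + 1, ((10 : ℕ) : ℤ) + 1)) := by
      rintro ⟨a1, a2⟩
      have h4 := h.mot.right (i + 1 + 1) (((10 : ℕ) : ℤ) + 1) (by omega) (by omega) (by norm_num)
        (by norm_num) a1
      rw [a2, Prod.mk.injEq] at h4
      omega
    rw [decide_eq_false this]
    simp
  · simp [hk]

theorem VH_sub (_ : FacH d d' f i) : sub (Vm d f i) (om d (i + 1)) = true := by
  rw [sub_iff]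
  intro k hk
  rw [Vm_bit, Bool.and_eq_true, decide_eq_true_eq, decide_eq_true_eq] at hk
  rw [om_bit, Bool.and_eq_true, decide_eq_true_eq, decide_eq_true_eq]
  exact ⟨hk.1, hk.2.1⟩

theorem UH_sub (h : FacH d d' f i) : sub (Um d f i) (om d' (i + 1)) = true := by
  rw [sub_iff]
  intro k hk
  rw [Um_bit, Bool.and_eq_true, decide_eq_true_eq, decide_eq_true_eq] at hk
  obtain ⟨h1, h2, h3⟩ := hk
  rw [om_bit, Bool.and_eq_true, decide_eq_true_eq, decide_eq_true_eq]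
  refine ⟨h1, ?_⟩
  have := h.mot.mv.mem (i, k + 1) h2
  rwa [h3] at this

theorem srchH_sound (P : ℕ → List Ent) (δ n : ℕ) : ∀ (φ : ℕ) (i : ℤ), φ < 5 →
    (∀ k : ℕ, k < n → FacH d d' f (i + k)) →
    (∀ k : ℕ, k ≤ n → dt d (i + k) ∈ P ((φ + k) % 5) ∧ dt d' (i + k) ∈ P ((φ + k + δ) % 5)) →
    srchH P δ n φ (dt d i) (dt d' i) (Um d f i) (Vm d f i) = true → False := by
  induction n with
  | zero =>
    intro φ i _ _ _ h
    have h' : false = true := h
    cases h'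
  | succ n ih =>
    intro φ i hφ hF hP h
    have hf : FacH d d' f i := by
      have := hF 0 (by omega)
      rwa [Nat.cast_zero, add_zero] at this
    have hP1 := hP 1 (by omega)
    rw [Nat.cast_one] at hP1
    have h' : ((P ((φ + 1) % 5)).all fun y => !(stepok (dt d i) y && sub (Vm d f i) y.1) ||
      (P ((φ + 1 + δ) % 5)).all fun t => !(stepok (dt d' i) t && sub (Um d f i) t.1) ||
      allSub 10 (1023 &&& (y.1 ^^^ Vm d f i)) 0 fun R =>
        !(sub (R <<< 1) (t.1 ^^^ Um d f i)) ||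
        allSub 10 (1023 &&& (y.1 ^^^ Vm d f i ^^^ R)) 0 fun L =>
          !(Nat.beq (L % 2) 0 && (sub (L >>> 1) (t.1 ^^^ Um d f i ^^^ (R <<< 1)) &&
            Nat.beq ((t.1 ^^^ Um d f i ^^^ (R <<< 1) ^^^ (L >>> 1)) &&& 1024) 0)) ||
            srchH P δ n ((φ + 1) % 5) y t (1023 &&& (y.1 ^^^ Vm d f i ^^^ R ^^^ L))
              (t.1 ^^^ Um d f i ^^^ (R <<< 1) ^^^ (L >>> 1))) = true := h
    have s1 := stepok_dt d hf.mot.bin hf.mot.zero i hf.dom hf.tight
    have s2 := stepok_dt d' hf.mot.bin' hf.mot.zero' i hf.dom' hf.tight'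
    have v1 := VH_sub hf
    have u1 := UH_sub hf
    have h1 := (List.all_eq_true.mp h') _ hP1.1
    change (!(stepok (dt d i) (dt d (i + 1)) && sub (Vm d f i) (om d (i + 1))) || _) = true at h1
    rw [s1, v1, Bool.and_self, Bool.not_true, Bool.false_or] at h1
    have h2 := (List.all_eq_true.mp h1) _ hP1.2
    change (!(stepok (dt d' i) (dt d' (i + 1)) && sub (Um d f i) (om d' (i + 1))) || _) = true at h2
    rw [s2, u1, Bool.and_self, Bool.not_true, Bool.false_or] at h2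
    have h3 := allSub_sound _ _ _ _ h2 (1023 &&& Rm d f (i + 1))
      (lt_of_bits _ _ fun k hk => (RH_lt10 hf k hk).1) (RH_sub hf)
    rw [Nat.zero_or] at h3
    change (!(sub ((1023 &&& Rm d f (i + 1)) <<< 1) (om d' (i + 1) ^^^ Um d f i)) || _) = true at h3
    rw [RH_shift hf, Bool.not_true, Bool.false_or] at h3
    have h4 := allSub_sound _ _ _ _ h3 (Lm d f (i + 1)) (lt_of_bits _ _ fun k hk => (LH_lt10 hf k hk).1)
      (LH_sub hf)
    rw [Nat.zero_or] at h4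
    change (!(Nat.beq (Lm d f (i + 1) % 2) 0 && (sub (Lm d f (i + 1) >>> 1)
      (om d' (i + 1) ^^^ Um d f i ^^^ ((1023 &&& Rm d f (i + 1)) <<< 1)) &&
      Nat.beq ((om d' (i + 1) ^^^ Um d f i ^^^ ((1023 &&& Rm d f (i + 1)) <<< 1) ^^^
        (Lm d f (i + 1) >>> 1)) &&& 1024) 0)) ||
        srchH P δ n ((φ + 1) % 5) (dt d (i + 1)) (dt d' (i + 1))
          (1023 &&& (om d (i + 1) ^^^ Vm d f i ^^^ (1023 &&& Rm d f (i + 1)) ^^^ Lm d f (i + 1)))
          (om d' (i + 1) ^^^ Um d f i ^^^ ((1023 &&& Rm d f (i + 1)) <<< 1) ^^^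
            (Lm d f (i + 1) >>> 1))) = true at h4
    rw [VH_eq hf.mot, UH_eq hf.mot, LH_shift hf, LH_zero hf, VH2_zero hf] at h4
    have h5 : srchH P δ n ((φ + 1) % 5) (dt d (i + 1)) (dt d' (i + 1)) (Um d f (i + 1))
          (Vm d f (i + 1)) = true := h4
    exact ih ((φ + 1) % 5) (i + 1) (by omega)
        (fun k hk => by
          have := hF (k + 1) (by omega)
          rwa [Nat.cast_add, Nat.cast_one, show i + ((k : ℤ) + 1) = i + 1 + k by ring] at this)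
        (fun k hk => by
          have := hP (k + 1) (by omega)
          rwa [Nat.cast_add, Nat.cast_one, show i + ((k : ℤ) + 1) = i + 1 + k by ring,
            show (φ + (k + 1)) % 5 = ((φ + 1) % 5 + k) % 5 by omega,
            show (φ + (k + 1) + δ) % 5 = ((φ + 1) % 5 + k + δ) % 5 by omega] at this)
        h5

end Ex

end PatGap
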