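import Pool.Agent.H.MP_b28609_co.Gap.K.PairA

/-!
# MP_b28609_co, exact theorem: no motion to the right, check C
-/

set_option autoImplicit false
set_option maxRecDepth 100000

namespace PatGap

namespace Ex

theorem initH2b : initH pl2 3 12 1 (((pl2 1).drop 4).take 2) = true := by decide +kernel

theorem initH2c : initH pl2 3 12 1 ((pl2 1).drop 7) = true := by decide +kernel

end Ex

end PatGap
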