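import Pool.Agent.H.MP_b28609_co.Gap.K.PairA

/-!
# MP_b28609_co, exact theorem: no motion to the right, check E
-/

set_option autoImplicit false
set_option maxRecDepth 100000

namespace PatGap

namespace Ex

theorem initH3a : initH pl3 2 12 2 ((pl3 2).take 7) = true := by decide +kernel

theorem initH3b : initH pl3 2 12 2 ((pl3 2).drop 7) = true := by decide +kernel

end Ex

end PatGap
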