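import Pool.Agent.H.MP_b28609_co.Gap.K.Stmt
import Pool.Agent.H.MP_b28609_co.Gap.K.Mot
import Pool.Agent.H.MP_b28609_co.Gap.K.PairB
import Pool.Agent.H.MP_b28609_co.Gap.K.PairC
import Pool.Agent.H.MP_b28609_co.Gap.K.PairD
import Pool.Agent.H.MP_b28609_co.Gap.K.PairE
import Pool.Agent.H.MP_b28609_co.Gap.Ex.ExStrip

/-!
# MP_b28609_co, exact theorem: no clean rows with a motion to the right
-/

set_option autoImplicit false
set_option maxRecDepth 100000

namespace PatGap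

open Side

namespace Ex

open PatDom.V2 (allSub allSub_sound)

theorem split2 : pl2 1 = (pl2 1).take 4 ++ (((pl2 1).drop 4).take 2 ++
    (((pl2 1).drop 6).take 1 ++ (pl2 1).drop 7)) := by decide +kernel

theorem initH_append (P : ℕ → List Ent) (δ n φ : ℕ) (X Y : List Ent) :
    initH P δ n φ (X ++ Y) = (initH P δ n φ X && initH P δ n φ Y) := by
  unfold initH
  rw [List.all_append]

theorem initH2 : initH pl2 3 12 1 (pl2 1) = true := by
  refine (congrArg (initH pl2 3 12 1) split2).trans ?_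
  rw [initH_append, initH_append, initH_append, initH2a, initH2b, initH2c, initH2d]
  rfl

theorem split3 : pl3 2 = (pl3 2).take 7 ++ (pl3 2).drop 7 := by decide +kernel

theorem initH3 : initH pl3 2 12 2 (pl3 2) = true := by
  refine (congrArg (initH pl3 2 12 2) split3).trans ?_
  rw [initH_append, initH3a, initH3b]
  rfl

theorem noHor_gen (P : ℕ → List Ent) (δ φ0 : ℕ) (hφ0 : φ0 < 5)
    (hinit : initH P δ 12 φ0 (P φ0) = true)
    (d d' : ℤ → ℤ → ℤ) (f : ℤ × ℤ → ℤ × ℤ) (c r : ℤ)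
    (hb : Bin d) (hb' : Bin d') (hM : Mv d d' f)
    (hz : ∀ i j, j ≤ 0 → d i j = 0) (hz' : ∀ i j, j ≤ 0 → d' i j = 0)
    (hdom : ∀ i j, r ≤ i → i ≤ r + 33 → 1 ≤ j → j ≤ 10 → 1 ≤ a d i j)
    (hdom' : ∀ i j, r ≤ i → i ≤ r + 33 → 1 ≤ j → j ≤ 10 → 1 ≤ a d' i j)
    (ht : ∀ i, r ≤ i → i ≤ r + 33 → sg Gs d i = 0)
    (ht' : ∀ i, r ≤ i → i ≤ r + 33 → sg Gs d' i = 0)
    (hright : ∀ i j, r + 1 ≤ i → i ≤ r + 32 → 11 ≤ j → j ≤ 12 → d i j = 1 → f (i, j) = (i, j + 1))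
    (hm : ∀ (l : ℤ), r + 5 ≤ l → l + 12 ≤ r + 33 → ∀ φ : ℕ, (φ : ℤ) = (l - c) % 5 → dt d l ∈ P φ)
    (hm' : ∀ (l : ℤ), r + 5 ≤ l → l + 12 ≤ r + 33 → ∀ φ : ℕ, (φ : ℤ) = (l - c + δ) % 5 →
      dt d' l ∈ P φ) : False := by
  obtain ⟨i, hi1, hi2, hi3⟩ : ∃ i, r + 5 ≤ i ∧ i ≤ r + 9 ∧ (i - c) % 5 = φ0 :=
    ⟨r + 5 + (φ0 - (r + 5 - c)) % 5, by omega, by omega, by omega⟩
  have hF : ∀ k : ℕ, k < 12 → FacH d d' f (i + k) := by
    intro k hk
    refine ⟨⟨hb, hb', hM, hz, hz', ?_⟩, ?_, ?_, ?_, ?_⟩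
    · intro l j h1 h2 h3 h4 h5
      exact hright l j (by omega) (by omega) h3 (by omega) h5
    · intro j h1 h2
      exact hdom _ j (by omega) (by omega) h1 h2
    · intro j h1 h2
      exact hdom' _ j (by omega) (by omega) h1 h2
    · exact ht _ (by omega) (by omega)
    · exact ht' _ (by omega) (by omega)
  have hP : ∀ k : ℕ, k ≤ 12 →
      dt d (i + k) ∈ P ((φ0 + k) % 5) ∧ dt d' (i + k) ∈ P ((φ0 + k + δ) % 5) := by
    intro k hk
    refine ⟨hm _ (by omega) (by omega) _ ?_, hm' _ (by omega) (by omega) _ ?_⟩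
    · push_cast
      omega
    · push_cast
      omega
  have hf : FacH d d' f i := by
    have := hF 0 (by omega)
    rwa [Nat.cast_zero, add_zero] at this
  have hP0 := hP 0 (by omega)
  simp only [Nat.cast_zero, add_zero] at hP0
  rw [Nat.mod_eq_of_lt hφ0] at hP0
  have h' : ((P φ0).all fun x => (P ((φ0 + δ) % 5)).all fun z =>
    allSub 10 (1023 &&& x.1) 0 fun U => allSub 10 (1023 &&& z.1) 0 fun V =>
      srchH P δ 12 φ0 x z U V) = true := hinit
  have h1 := (List.all_eq_true.mp ((List.all_eq_true.mp h') _ hP0.1)) _ hP0.2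
  have hU : ∀ k, (Um d f i).testBit k = true → k < 10 ∧ d i (k + 1) = 1 := by
    intro k hk
    rw [Um_bit, Bool.and_eq_true, decide_eq_true_eq, decide_eq_true_eq] at hk
    obtain ⟨a1, a2, a3⟩ := hk
    refine ⟨?_, a2⟩
    by_contra hcc
    have h10 : k = 10 := by omega
    subst h10
    have h4 := hf.mot.right i (((10 : ℕ) : ℤ) + 1) (by omega) (by omega) (by norm_num)
      (by norm_num) a2
    rw [a3, Prod.mk.injEq] at h4
    omega
  have h2 := allSub_sound _ _ _ _ h1 (Um d f i) (lt_of_bits _ _ fun k hk => (hU k hk).1)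
    (by
      intro k hk
      obtain ⟨a1, a2⟩ := hU k hk
      have a3 : k < 11 := by omega
      change (1023 &&& om d i).testBit k = true
      rw [Nat.testBit_and, bit1023, om_bit]
      simp [a1, a2, a3])
  rw [Nat.zero_or] at h2
  have hV : ∀ k, (Vm d f i).testBit k = true → k < 10 ∧ d' i (k + 1) = 1 := by
    intro k hk
    rw [Vm_bit, Bool.and_eq_true, decide_eq_true_eq, decide_eq_true_eq] at hk
    obtain ⟨a1, a2, a3⟩ := hk
    constructor
    · by_contra hcc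
      have h10 : k = 10 := by omega
      subst h10
      have h4 := hf.mot.right (i + 1) (((10 : ℕ) : ℤ) + 1) (by omega) (by omega) (by norm_num)
        (by norm_num) a2
      rw [a3, Prod.mk.injEq] at h4
      omega
    · have := hf.mot.mv.mem (i + 1, k + 1) a2
      rwa [a3] at this
  have h3 := allSub_sound _ _ _ _ h2 (Vm d f i) (lt_of_bits _ _ fun k hk => (hV k hk).1)
    (by
      intro k hk
      obtain ⟨a1, a2⟩ := hV k hk
      have a3 : k < 11 := by omega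
      change (1023 &&& om d' i).testBit k = true
      rw [Nat.testBit_and, bit1023, om_bit]
      simp [a1, a2, a3])
  rw [Nat.zero_or] at h3
  exact srchH_sound P δ 12 φ0 i hφ0 hF hP h3

end Ex

open Ex

/-- No clean rows with a motion to the right. -/
theorem noHor (m n : ℤ) (d d' : ℤ → ℤ → ℤ) (f : ℤ × ℤ → ℤ × ℤ) (r s c c' : ℤ)
    (hd : DomG m n d) (hd' : DomG m n d') (hM : Mv d d' f) (hn : 30 ≤ n) (hr : 10 ≤ r)
    (hrm : r + 50 ≤ m) (hC : CleanK n d r) (hC' : CleanK n d' r) (hs : s = 2 ∨ s = 3)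
    (h0 : 0 ≤ c) (h4 : c ≤ 4) (h0' : 0 ≤ c') (h4' : c' ≤ 4)
    (hL : Lat d s c (r + 4) (r + 37) 10 (n - 9)) (hL' : Lat d' s c' (r + 4) (r + 37) 10 (n - 9)) :
    (c' - c - s) % 5 ≠ 0 := by
  intro hcon
  have hz : ∀ i j, j ≤ 0 → d i j = 0 := fun i j hj => hd.2.1 i j (by omega)
  have hz' : ∀ i j, j ≤ 0 → d' i j = 0 := fun i j hj => hd'.2.1 i j (by omega)
  have hdom : ∀ i j, r + 4 ≤ i → i ≤ r + 4 + 33 → 1 ≤ j → j ≤ 10 → 1 ≤ a d i j :=
    fun i j h1 h2 h3 h4 => hd.2.2 i j (by omega) (by omega) h3 (by omega)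
  have hdom' : ∀ i j, r + 4 ≤ i → i ≤ r + 4 + 33 → 1 ≤ j → j ≤ 10 → 1 ≤ a d' i j :=
    fun i j h1 h2 h3 h4 => hd'.2.2 i j (by omega) (by omega) h3 (by omega)
  have ht : ∀ i, r + 4 ≤ i → i ≤ r + 4 + 33 → sg Gs d i = 0 :=
    fun i h1 h2 => (hC i (by omega) (by omega)).1
  have ht' : ∀ i, r + 4 ≤ i → i ≤ r + 4 + 33 → sg Gs d' i = 0 :=
    fun i h1 h2 => (hC' i (by omega) (by omega)).1
  have hright : ∀ i j, r + 4 + 1 ≤ i → i ≤ r + 4 + 32 → 11 ≤ j → j ≤ 12 → d i j = 1 →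
      f (i, j) = (i, j + 1) := by
    intro i j h1 h2 h3 h4 h5
    have h6 := hM.mem (i, j) h5
    have h7 := hM.nb (i, j) h5
    have h8 := (hL i j (by omega) (by omega) (by omega) (by omega)).1 h5
    obtain ⟨x, y, hxy⟩ : ∃ x y, f (i, j) = (x, y) := ⟨_, _, rfl⟩
    rw [hxy] at h6 h7 ⊢
    have h9 : (x = i ∧ (y = j + 1 ∨ y = j - 1)) ∨ (y = j ∧ (x = i + 1 ∨ x = i - 1)) := h7
    have h10 : (x + s * y) % 5 = c' :=
      (hL' x y (by omega) (by omega) (by omega) (by omega)).1 h6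
    have h11 : x = i ∧ y = j + 1 := by
      rcases hs with rfl | rfl
      · omega
      · omega
    rw [h11.1, h11.2]
  have hl : Lat d s c (r + 4) (r + 4 + 33) 10 13 :=
    fun i j h1 h2 h3 h4 => hL i j h1 (by omega) h3 (by omega)
  have hl' : Lat d' s c' (r + 4) (r + 4 + 33) 10 13 :=
    fun i j h1 h2 h3 h4 => hL' i j h1 (by omega) h3 (by omega)
  rcases hs with rfl | rfl
  · exact noHor_gen pl2 3 1 (by norm_num) initH2 d d' f c (r + 4) hd.1 hd'.1 hM hz hz' hdom hdom' ht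
      ht' hright
      (fun l h5 h6 φ hφ => mem2 d hd.1 hz c (r + 4) 33 h0 h4 hl hdom ht l h5 h6 φ hφ)
      (fun l h5 h6 φ hφ => mem2 d' hd'.1 hz' c' (r + 4) 33 h0' h4' hl' hdom' ht' l h5 h6 φ (by
        push_cast at hφ
        omega))
  · exact noHor_gen pl3 2 2 (by norm_num) initH3 d d' f c (r + 4) hd.1 hd'.1 hM hz hz' hdom hdom' ht
      ht' hright
      (fun l h5 h6 φ hφ => mem3 d hd.1 hz c (r + 4) 33 h0 h4 hl hdom ht l h5 h6 φ hφ)
      (fun l h5 h6 φ hφ => mem3 d' hd'.1 hz' c' (r + 4) 33 h0' h4' hl' hdom' ht' l h5 h6 φ (by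
        push_cast at hφ
        omega))

end PatGap
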