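import Pool.Agent.H.MP_b28609_co.Gap.Ex.Pair

/-!
# MP_b28609_co, exact theorem: no motion to the right, definitions of the search
-/

set_option autoImplicit false
set_option maxRecDepth 100000

namespace PatGap

open Side

namespace Ex

open PatDom.V2 (allSub allSub_sound)

/-- No continuation has more than `n` rows, when the guards outside the strip move to the right. -/
def srchH (P : ℕ → List Ent) (δ n : ℕ) : ℕ → Ent → Ent → ℕ → ℕ → Bool :=
  Nat.rec (motive := fun _ => ℕ → Ent → Ent → ℕ → ℕ → Bool) (fun _ _ _ _ _ => false)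
    (fun _ ih φ x z U V =>
      (P ((φ + 1) % 5)).all fun y => !(stepok x y && sub V y.1) ||
      (P ((φ + 1 + δ) % 5)).all fun t => !(stepok z t && sub U t.1) ||
      allSub 10 (1023 &&& (y.1 ^^^ V)) 0 fun R =>
        !(sub (R <<< 1) (t.1 ^^^ U)) ||
        allSub 10 (1023 &&& (y.1 ^^^ V ^^^ R)) 0 fun L =>
          !(Nat.beq (L % 2) 0 && (sub (L >>> 1) (t.1 ^^^ U ^^^ (R <<< 1)) &&
            Nat.beq ((t.1 ^^^ U ^^^ (R <<< 1) ^^^ (L >>> 1)) &&& 1024) 0)) ||
            ih ((φ + 1) % 5) y t (1023 &&& (y.1 ^^^ V ^^^ R ^^^ L))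
              (t.1 ^^^ U ^^^ (R <<< 1) ^^^ (L >>> 1))) n

/-- All starts with the first row in the list `X`. -/
def initH (P : ℕ → List Ent) (δ n φ : ℕ) (X : List Ent) : Bool :=
  X.all fun x => (P ((φ + δ) % 5)).all fun z =>
    allSub 10 (1023 &&& x.1) 0 fun U => allSub 10 (1023 &&& z.1) 0 fun V =>
      srchH P δ n φ x z U V

end Ex

end PatGap
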