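import Pool.Agent.H.MP_b28609_co.Gap.Ex.StmtL

/-!
# MP_b28609_co, exact theorem, lower bound with small constants: definitions

As in `Ex/StmtL.lean`, with 40 clean rows instead of 240.
-/

set_option autoImplicit false

noncomputable section

namespace PatGap

/-- The rows `r + 1, ..., r + 40` are clean. -/
def CleanK (n : ℤ) (d : ℤ → ℤ → ℤ) (r : ℤ) : Prop :=
  ∀ i, r + 1 ≤ i → i ≤ r + 40 → sg Gs d i = 0 ∧ ∀ j, 11 ≤ j → j ≤ n - 10 → a d i j = 1

/-- The rows `r + 1, ..., r + 40` are clean on both sides. -/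
def CleanK2 (n : ℤ) (d : ℤ → ℤ → ℤ) (r : ℤ) : Prop := CleanK n d r ∧ CleanK n (rf n d) r

/-- In the rows `r + 4, ..., r + 37` both sets are perfect codes in the columns `10, ..., n - 9`, and
the guards there move to the next row. -/
structure GdK (n : ℤ) (d d' : ℤ → ℤ → ℤ) (f : ℤ × ℤ → ℤ × ℤ) (s c r : ℤ) : Prop where
  slope : s = 2 ∨ s = 3
  c0 : 0 ≤ c
  c4 : c ≤ 4
  lat : Lat d s c (r + 4) (r + 37) 10 (n - 9)
  lat' : Lat d' s ((c + 1) % 5) (r + 4) (r + 37) 10 (n - 9)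
  down : ∀ i j, r + 5 ≤ i → i ≤ r + 36 → 11 ≤ j → j ≤ n - 10 → d i j = 1 → f (i, j) = (i + 1, j)

end PatGap
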